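import Pool.Agent.helper51.TS.ATR

/-! # MP_332e42_an (project TS), module COV: covering of the space -/

set_option autoImplicit false

namespace Pool.Agent.helper23.TS

open Pointwise Filter Topology

theorem COV_closed {d : ℕ} (Λ : Set (Fin d → ℤ)) : IsClosed (toR '' Λ) := by
  refine Metric.isClosed_of_pairwise_le_dist (ε := 1) one_pos ?_
  rintro _ ⟨x, _, rfl⟩ _ ⟨y, _, rfl⟩ hne
  have h1 : ∃ i, x i ≠ y i := by
    by_contra hcon
    push Not at hcon
    exact hne (congrArg toR (funext hcon))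
  obtain ⟨i, hi⟩ := h1
  refine le_trans ?_ (dist_le_pi_dist (toR x) (toR y) i)
  rw [Real.dist_eq]
  show (1:ℝ) ≤ |(x i : ℝ) - (y i : ℝ)|
  have h2 : (1:ℤ) ≤ |x i - y i| := Int.one_le_abs (sub_ne_zero.2 hi)
  have h3 : ((1:ℤ) : ℝ) ≤ ((|x i - y i| : ℤ) : ℝ) := Int.cast_le.2 h2
  rw [Int.cast_abs, Int.cast_sub, Int.cast_one] at h3
  exact h3

theorem covering {d : ℕ} (S : Sys d) {D : Set (Fin d → ℤ)} {T : Set (Fin d → ℝ)}
    (hT : IsAttr S D T) (Λ : AddSubgroup (Fin d → ℤ)) (hfi : Λ.FiniteIndex)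
    (hfull : ∀ x ∈ Λ, ∃ δ ∈ D, ∃ y ∈ Λ, x = δ + S.R y) (z : Fin d → ℝ) :
    ∃ t ∈ Λ, z - toR t ∈ T := by
  set C : Set (Fin d → ℝ) := (toR '' (Λ : Set (Fin d → ℤ))) + T with hC
  have hclosed : IsClosed C := (COV_closed _).add_right_of_isCompact hT.2.1
  -- `C` is invariant
  have hinv : ∀ z ∈ C, S.A.symm z ∈ C := by
    rintro _ ⟨_, ⟨t, ht, rfl⟩, c, hc, rfl⟩
    obtain ⟨δ, hδ, y, hy, hxy⟩ := hfull t ht
    refine ⟨toR y, ⟨y, hy, rfl⟩, S.A.symm (c + toR δ), ATR_step S hT hδ hc, ?_⟩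
    show toR y + S.A.symm (c + toR δ) = S.A.symm (toR t + c)
    rw [hxy, ATR_toR_add, ← S.compat]
    have h2 : toR δ + S.A (toR y) + c = S.A (toR y) + (c + toR δ) := by abel
    rw [h2, S.A.symm.map_add (S.A (toR y)), ContinuousLinearEquiv.symm_apply_apply]
  have hinvn : ∀ n, ∀ z ∈ C, (ATR_M S ^ n) z ∈ C := by
    intro n
    induction n with
    | zero => intro z hz; simpa using hz
    | succ n ih =>
      intro z hz
      rw [ATR_pow_succ']
      exact hinv _ (ih z hz)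
  -- `Λ` is relatively dense
  set q := Λ.index with hq
  have hq0 : 0 < q := Nat.pos_of_ne_zero hfi.index_ne_zero
  have hqR : (0:ℝ) < q := by exact_mod_cast hq0
  have hdense : ∀ v : Fin d → ℝ, ∃ t ∈ Λ, ‖v - toR t‖ ≤ q := by
    intro v
    set r : Fin d → ℤ := fun i => ⌊v i / q⌋ with hr
    refine ⟨q • r, ?_, ?_⟩
    · exact AddSubgroup.nsmul_index_mem Λ r
    · rw [pi_norm_le_iff_of_nonneg hqR.le]
      intro i
      show ‖v i - (((q • r) i : ℤ) : ℝ)‖ ≤ q
      have h1 : (((q • r) i : ℤ) : ℝ) = q * (⌊v i / q⌋ : ℝ) := by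
        rw [Pi.smul_apply, hr]
        simp
      rw [h1, Real.norm_eq_abs, abs_le]
      have h2 := Int.floor_le (v i / q)
      have h3 := Int.lt_floor_add_one (v i / q)
      have h4 : q * (v i / q) = v i := by field_simp
      constructor
      · nlinarith
      · nlinarith
  obtain ⟨x₀, hx₀⟩ := hT.1
  choose t ht htn using hdense
  -- approximations of `z`
  set a : ℕ → (Fin d → ℝ) := fun n => ((S.A : (Fin d → ℝ) → (Fin d → ℝ))^[n]) z with ha
  have haz : ∀ n, (ATR_M S ^ n) (a n) = z := by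
    intro n
    induction n with
    | zero => simp [ha]
    | succ n ih =>
      rw [ATR_pow_succ, ha]
      simp only
      rw [Function.iterate_succ_apply', ContinuousLinearEquiv.symm_apply_apply]
      exact ih
  have hmem : ∀ n, (ATR_M S ^ n) (toR (t (a n - x₀)) + x₀) ∈ C :=
    fun n => hinvn n _ ⟨_, ⟨_, ht _, rfl⟩, _, hx₀, rfl⟩
  have hT0 : Tendsto (fun n => ‖ATR_M S ^ n‖) atTop (𝓝 0) := S.summ.tendsto_atTop_zero
  have hlim : Tendsto (fun n => (ATR_M S ^ n) (toR (t (a n - x₀)) + x₀)) atTop (𝓝 z) := by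
    rw [tendsto_iff_norm_sub_tendsto_zero]
    refine squeeze_zero (fun n => norm_nonneg _) (g := fun n => ‖ATR_M S ^ n‖ * q) (fun n => ?_) ?_
    · have h1 : (ATR_M S ^ n) (toR (t (a n - x₀)) + x₀) - z =
          (ATR_M S ^ n) (-((a n - x₀) - toR (t (a n - x₀)))) := by
        conv_lhs => rw [← haz n]
        rw [← map_sub]
        congr 1
        abel
      rw [h1]
      refine ((ATR_M S ^ n).le_opNorm _).trans ?_
      rw [norm_neg]
      exact mul_le_mul_of_nonneg_left (htn _) (norm_nonneg _)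
    · have := hT0.mul_const (q : ℝ)
      rwa [zero_mul] at this
  have hz : z ∈ C := hclosed.mem_of_tendsto hlim (Eventually.of_forall hmem)
  obtain ⟨_, ⟨s, hs, rfl⟩, c, hc, hsc⟩ := hz
  refine ⟨s, hs, ?_⟩
  have : z - toR s = c := by
    rw [← hsc]
    simp
  rw [this]
  exact hc

end Pool.Agent.helper23.TS
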