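import Pool.Agent.helper23.TS.Defs

/-! # MP_332e42_an (project TS), module ATR: attractors -/

set_option autoImplicit false

namespace Pool.Agent.helper23.TS

open Pointwise Filter Topology

/-- the contraction -/
noncomputable abbrev ATR_M {d : ℕ} (S : Sys d) : (Fin d → ℝ) →L[ℝ] (Fin d → ℝ) :=
  (S.A.symm : (Fin d → ℝ) →L[ℝ] (Fin d → ℝ))

theorem ATR_pow_succ {d : ℕ} (S : Sys d) (n : ℕ) (x : Fin d → ℝ) :
    (ATR_M S ^ (n + 1)) x = (ATR_M S ^ n) (S.A.symm x) := by
  rw [pow_succ]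
  rfl

theorem ATR_pow_succ' {d : ℕ} (S : Sys d) (n : ℕ) (x : Fin d → ℝ) :
    (ATR_M S ^ (n + 1)) x = S.A.symm ((ATR_M S ^ n) x) := by
  rw [pow_succ']
  rfl

theorem ATR_toR_add {d : ℕ} (x y : Fin d → ℤ) : toR (x + y) = toR x + toR y := by
  funext i
  simp [toR]

theorem ATR_step {d : ℕ} (S : Sys d) {B : Set (Fin d → ℤ)} {T : Set (Fin d → ℝ)}
    (h : IsAttr S B T) {e : Fin d → ℤ} (he : e ∈ B) {x : Fin d → ℝ} (hx : x ∈ T) :
    S.A.symm (x + toR e) ∈ T := by
  rw [h.2.2]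
  exact Set.mem_biUnion he ⟨x, hx, rfl⟩

theorem ATR_unstep {d : ℕ} (S : Sys d) {B : Set (Fin d → ℤ)} {T : Set (Fin d → ℝ)}
    (h : IsAttr S B T) {x : Fin d → ℝ} (hx : x ∈ T) :
    ∃ e ∈ B, ∃ y ∈ T, x = S.A.symm (y + toR e) := by
  rw [h.2.2] at hx
  simp only [Set.mem_iUnion] at hx
  obtain ⟨e, he, y, hy, hxy⟩ := hx
  exact ⟨e, he, y, hy, hxy.symm⟩

/-- words of digits act on the attractor -/
theorem attr_word {d : ℕ} (S : Sys d) {B : Set (Fin d → ℤ)} {T : Set (Fin d → ℝ)}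
    (h : IsAttr S B T) {n : ℕ} {δ : Fin d → ℤ} (hδ : Mv S.R B n δ 0) {x : Fin d → ℝ} (hx : x ∈ T) :
    ((S.A.symm : (Fin d → ℝ) →L[ℝ] (Fin d → ℝ)) ^ n) (toR δ + x) ∈ T := by
  have key : ∀ (n : ℕ) (δ z : Fin d → ℤ), Mv S.R B n δ z → z = 0 → ∀ x ∈ T,
      (ATR_M S ^ n) (toR δ + x) ∈ T := by
    intro n δ z hδ
    induction hδ with
    | zero x =>
      intro hz x' hx'
      have : toR x = 0 := by
        rw [hz]; funext i; simp [toR]
      rw [this, zero_add]
      simpa using hx'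
    | @succ n x y z e he hxy _ ih =>
      intro hz x' hx'
      rw [ATR_pow_succ]
      have h1 : S.A.symm (toR x + x') = toR y + S.A.symm (x' + toR e) := by
        rw [hxy, ATR_toR_add, ← S.compat]
        have h2 : toR e + S.A (toR y) + x' = S.A (toR y) + (x' + toR e) := by abel
        rw [h2, map_add, ContinuousLinearEquiv.symm_apply_apply]
      rw [h1]
      exact ih hz _ (ATR_step S h he hx')
  exact key n δ 0 hδ rfl x hx

/-- finite words applied to a point -/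
theorem ATR_prefix {d : ℕ} (S : Sys d) {B : Set (Fin d → ℤ)} {T : Set (Fin d → ℝ)}
    (h : IsAttr S B T) : ∀ (n : ℕ) (b : ℕ → (Fin d → ℤ)), (∀ i, b i ∈ B) → ∀ y ∈ T,
      (∑ i ∈ Finset.range n, (ATR_M S ^ (i + 1)) (toR (b i))) + (ATR_M S ^ n) y ∈ T := by
  intro n
  induction n with
  | zero => intro b _ y hy; simpa using hy
  | succ n ih =>
    intro b hb y hy
    have h1 := ih (fun i => b (i + 1)) (fun i => hb (i + 1)) y hy
    have h2 := ATR_step S h (hb 0) h1
    have h3 : (∑ i ∈ Finset.range (n + 1), (ATR_M S ^ (i + 1)) (toR (b i))) +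
        (ATR_M S ^ (n + 1)) y =
        S.A.symm ((∑ i ∈ Finset.range n, (ATR_M S ^ (i + 1)) (toR (b (i + 1)))) +
          (ATR_M S ^ n) y + toR (b 0)) := by
      have h4 : (ATR_M S ^ (0 + 1)) (toR (b 0)) = S.A.symm (toR (b 0)) := by
        rw [ATR_pow_succ']; simp
      rw [Finset.sum_range_succ', h4, map_add, map_add, map_sum, ATR_pow_succ' S n y]
      have h5 : ∀ i, (ATR_M S ^ (i + 1 + 1)) (toR (b (i + 1))) =
        S.A.symm ((ATR_M S ^ (i + 1)) (toR (b (i + 1)))) := fun i => ATR_pow_succ' S _ _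
      simp_rw [h5]
      abel
    rw [h3]
    exact h2

theorem ATR_bound {d : ℕ} {B : Set (Fin d → ℤ)} (hB : B.Finite) :
    ∃ C : ℝ, 0 ≤ C ∧ ∀ b ∈ B, ‖toR b‖ ≤ C := by
  obtain ⟨C, hC⟩ := (hB.image (fun b => ‖toR b‖)).bddAbove
  refine ⟨max C 0, le_max_right _ _, fun b hb => ?_⟩
  exact (hC ⟨b, hb, rfl⟩).trans (le_max_left _ _)

theorem ATR_summ1 {d : ℕ} (S : Sys d) : Summable fun n : ℕ => ‖ATR_M S ^ (n + 1)‖ :=
  (summable_nat_add_iff 1).2 S.summ

theorem ATR_summable {d : ℕ} (S : Sys d) {B : Set (Fin d → ℤ)} (hB : B.Finite)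
    (b : ℕ → (Fin d → ℤ)) (hb : ∀ i, b i ∈ B) :
    Summable fun i => (ATR_M S ^ (i + 1)) (toR (b i)) := by
  obtain ⟨C, hC0, hC⟩ := ATR_bound hB
  refine Summable.of_norm_bounded ((ATR_summ1 S).mul_right C) fun i => ?_
  refine ((ATR_M S ^ (i + 1)).le_opNorm _).trans ?_
  exact mul_le_mul_of_nonneg_left (hC _ (hb i)) (norm_nonneg _)

theorem attr_mem_iff {d : ℕ} (S : Sys d) {B : Set (Fin d → ℤ)} (hB : B.Finite)
    {T : Set (Fin d → ℝ)} (h : IsAttr S B T) (x : Fin d → ℝ) :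
    x ∈ T ↔ ∃ b : ℕ → (Fin d → ℤ), (∀ i, b i ∈ B) ∧
      HasSum (fun i => ((S.A.symm : (Fin d → ℝ) →L[ℝ] (Fin d → ℝ)) ^ (i + 1)) (toR (b i))) x := by
  have hT0 : Tendsto (fun n => ‖ATR_M S ^ n‖) atTop (𝓝 0) := S.summ.tendsto_atTop_zero
  constructor
  · intro hx
    -- the orbit
    choose! e he y hy hxy using fun x (hx : x ∈ T) => ATR_unstep S h hx
    set o : ℕ → (Fin d → ℝ) := fun n => y^[n] x with ho
    have hoT : ∀ n, o n ∈ T := by
      intro n
      induction n with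
      | zero => exact hx
      | succ n ih =>
        rw [ho]
        simp only
        rw [Function.iterate_succ_apply']
        exact hy _ ih
    have hos : ∀ n, o (n + 1) = y (o n) := fun n => Function.iterate_succ_apply' _ _ _
    refine ⟨fun n => e (o n), fun n => he _ (hoT n), ?_⟩
    have hpart : ∀ n, x = (∑ i ∈ Finset.range n, (ATR_M S ^ (i + 1)) (toR (e (o i)))) +
        (ATR_M S ^ n) (o n) := by
      intro n
      induction n with
      | zero => simp [ho]
      | succ n ih =>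
        rw [Finset.sum_range_succ, add_assoc]
        have h1 : (ATR_M S ^ n) (o n) =
            (ATR_M S ^ (n + 1)) (toR (e (o n))) + (ATR_M S ^ (n + 1)) (o (n + 1)) := by
          rw [← map_add, ATR_pow_succ, hos, add_comm (toR _), ← hxy _ (hoT n)]
        rw [← h1]
        exact ih
    obtain ⟨C, hC⟩ := h.2.1.isBounded.exists_norm_le
    have hlim : Tendsto (fun n => (ATR_M S ^ n) (o n)) atTop (𝓝 0) := by
      rw [tendsto_zero_iff_norm_tendsto_zero]
      refine squeeze_zero (fun n => norm_nonneg _) (g := fun n => ‖ATR_M S ^ n‖ * C) (fun n => ?_) ?_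
      · refine ((ATR_M S ^ n).le_opNorm _).trans ?_
        exact mul_le_mul_of_nonneg_left (hC _ (hoT n)) (norm_nonneg _)
      · have := hT0.mul_const C
        rwa [zero_mul] at this
    have hsum := ATR_summable S hB (fun n => e (o n)) (fun n => he _ (hoT n))
    have h2 := hsum.hasSum.tendsto_sum_nat
    have h3 : Tendsto (fun n => ∑ i ∈ Finset.range n, (ATR_M S ^ (i + 1)) (toR (e (o i)))) atTop
        (𝓝 x) := by
      have h4 : (fun n => ∑ i ∈ Finset.range n, (ATR_M S ^ (i + 1)) (toR (e (o i)))) =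
          fun n => x - (ATR_M S ^ n) (o n) := by
        funext n
        rw [eq_sub_iff_add_eq]
        exact (hpart n).symm
      rw [h4]
      have := (tendsto_const_nhds (x := x)).sub hlim
      rwa [sub_zero] at this
    have h5 := tendsto_nhds_unique h2 h3
    rw [← h5]
    exact hsum.hasSum
  · rintro ⟨b, hb, hsum⟩
    obtain ⟨y, hy⟩ := h.1
    have h1 := hsum.tendsto_sum_nat
    have hlim : Tendsto (fun n => (ATR_M S ^ n) y) atTop (𝓝 0) := by
      rw [tendsto_zero_iff_norm_tendsto_zero]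
      refine squeeze_zero (fun n => norm_nonneg _) (g := fun n => ‖ATR_M S ^ n‖ * ‖y‖)
        (fun n => (ATR_M S ^ n).le_opNorm _) ?_
      have := hT0.mul_const ‖y‖
      rwa [zero_mul] at this
    have h2 := h1.add hlim
    rw [add_zero] at h2
    exact h.2.1.isClosed.mem_of_tendsto h2
      (Eventually.of_forall fun n => ATR_prefix S h n b hb y hy)

theorem attr_unique {d : ℕ} (S : Sys d) {B : Set (Fin d → ℤ)} (hB : B.Finite)
    {T T' : Set (Fin d → ℝ)} (h : IsAttr S B T) (h' : IsAttr S B T') : T = T' := by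
  ext x
  rw [attr_mem_iff S hB h, attr_mem_iff S hB h']

theorem attr_exists {d : ℕ} (S : Sys d) {B : Set (Fin d → ℤ)} (hB : B.Finite) (hne : B.Nonempty) :
    ∃ T, IsAttr S B T := by
  have : Finite B := hB
  have : Nonempty B := hne.to_subtype
  set f : (ℕ → B) → (Fin d → ℝ) := fun b => ∑' i, (ATR_M S ^ (i + 1)) (toR (b i)) with hf
  obtain ⟨C, hC0, hC⟩ := ATR_bound hB
  have hcont : Continuous f := by
    refine continuous_tsum (u := fun i => ‖ATR_M S ^ (i + 1)‖ * C) ?_ ((ATR_summ1 S).mul_right C) ?_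
    · intro i
      refine (ATR_M S ^ (i + 1)).continuous.comp ?_
      have h1 : Continuous fun b : B => toR (b : Fin d → ℤ) := continuous_of_discreteTopology
      exact h1.comp (continuous_apply i)
    · intro i b
      refine ((ATR_M S ^ (i + 1)).le_opNorm _).trans ?_
      exact mul_le_mul_of_nonneg_left (hC _ (b i).2) (norm_nonneg _)
  have hstep : ∀ b : ℕ → B, f b = S.A.symm (f (fun n => b (n + 1)) + toR (b 0)) := by
    intro b
    have hs : Summable fun i => (ATR_M S ^ (i + 1)) (toR ((b i : B) : Fin d → ℤ)) :=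
      ATR_summable S hB (fun i => ((b i : B) : Fin d → ℤ)) (fun i => (b i).2)
    have hs' : Summable fun i => (ATR_M S ^ (i + 1)) (toR ((b (i + 1) : B) : Fin d → ℤ)) :=
      ATR_summable S hB (fun i => ((b (i + 1) : B) : Fin d → ℤ)) (fun i => (b (i + 1)).2)
    have h0 : f b = (ATR_M S ^ (0 + 1)) (toR ((b 0 : B) : Fin d → ℤ)) +
        ∑' i, (ATR_M S ^ (i + 1 + 1)) (toR ((b (i + 1) : B) : Fin d → ℤ)) :=
      hs.tsum_eq_zero_add
    have h1 : S.A.symm (f (fun n => b (n + 1))) =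
        ∑' i, (ATR_M S) ((ATR_M S ^ (i + 1)) (toR ((b (i + 1) : B) : Fin d → ℤ))) :=
      ContinuousLinearMap.map_tsum (ATR_M S) hs'
    have h2 : ∀ i, (ATR_M S ^ (i + 1 + 1)) (toR ((b (i + 1) : B) : Fin d → ℤ)) =
        (ATR_M S) ((ATR_M S ^ (i + 1)) (toR ((b (i + 1) : B) : Fin d → ℤ))) :=
      fun i => ATR_pow_succ' S _ _
    have h3 : (ATR_M S ^ (0 + 1)) (toR ((b 0 : B) : Fin d → ℤ)) = S.A.symm (toR (b 0)) := by
      rw [ATR_pow_succ']
      simp
    rw [h0, h3, map_add, h1, add_comm]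
    congr 1
    exact tsum_congr h2
  refine ⟨Set.range f, ⟨Set.range_nonempty f, isCompact_range hcont, ?_⟩⟩
  ext x
  simp only [Set.mem_iUnion]
  constructor
  · rintro ⟨b, rfl⟩
    exact ⟨b 0, (b 0).2, f (fun n => b (n + 1)), ⟨_, rfl⟩, (hstep b).symm⟩
  · rintro ⟨e, he, y, ⟨b, rfl⟩, rfl⟩
    refine ⟨fun n => if n = 0 then ⟨e, he⟩ else b (n - 1), ?_⟩
    rw [hstep]
    have h1 : (fun n => (fun n => if n = 0 then (⟨e, he⟩ : B) else b (n - 1)) (n + 1)) = b := by
      funext n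
      simp
    rw [h1]
    simp

end Pool.Agent.helper23.TS
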